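import Mathlib

namespace Pool.Agent.X886.MD

open Set Filter Topology

/-- The `1`-Lipschitz functions from the line to `[0,1]`. -/
def LipSet : Set (ℝ → ℝ) := {h | (∀ s, 0 ≤ h s ∧ h s ≤ 1) ∧ ∀ s s', |h s - h s'| ≤ |s - s'|}

/-- The point of `[-M, M]` nearest to `v`. -/
noncomputable def clampM (M : ℝ) (v : ℝ) : ℝ := max (-M) (min M v)

/-- `h` on `[-M, M]`, continued with slope one. -/
noncomputable def piece (M : ℝ) (h : ℝ → ℝ) (v : ℝ) : ℝ := h (clampM M v) + |v - clampM M v|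

/-- Convex combination. -/
noncomputable def mix (f g : ℝ → ℝ) (τ : ℝ) : ℝ → ℝ := fun s => (1 - τ) * f s + τ * g s

/-- The functions `mix f g (t i)` placed in the windows of radius `M` centred at the points `i (2 M + 1)`. -/
noncomputable def glue (M : ℕ) (n : ℕ) (f g : ℝ → ℝ) (t : Fin (n + 1) → ℝ) : ℝ → ℝ := fun s =>
  min 1 (⨅ i : Fin (n + 1), piece M (mix f g (t i)) (s - (i : ℕ) * (2 * M + 1)))

end Pool.Agent.X886.MD
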