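import Mathlib

namespace Pool.Agent.X886.MD

open Set Filter Topology

universe u

/-- the entourage given by `ρ` and `ε` -/
def UU {Y : Type u} (ρ : Y → ℝ) (ε : ℝ) : SetRel Y Y := {p | dist (ρ p.1) (ρ p.2) < ε}

theorem UU_mem {Y : Type u} [MetricSpace Y] [CompactSpace Y] (ρ : Y → ℝ) (hρ : Continuous ρ) {ε : ℝ}
    (hε : 0 < ε) : UU ρ ε ∈ uniformity Y :=
  (CompactSpace.uniformContinuous_of_continuous hρ) (Metric.dist_mem_uniformity hε)

theorem net_card {Y : Type u} [MetricSpace Y] [CompactSpace Y] (T : Y → Y) (ρ : Y → ℝ)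
    (L : ℕ) (hL : 1 ≤ L)
    (h : ∀ n : ℕ, ∀ c : Fin n → ℝ, (∀ i, 1 / 4 ≤ c i ∧ c i ≤ 3 / 4) →
      ∃ y : Y, ∀ i : Fin n, ρ (T^[(i : ℕ) * L] y) = c i) (K : ℕ) (hK : 1 ≤ K) (n : ℕ) :
    (((K + 1) ^ n : ℕ) : ℕ∞) ≤ Dynamics.netMaxcard T Set.univ (UU ρ (1 / (4 * (K : ℝ)))) (L * n) := by
  classical
  have hK0 : (0 : ℝ) < K := by exact_mod_cast hK
  have hc : ∀ j : Fin n → Fin (K + 1), ∃ y : Y, ∀ i : Fin n,
      ρ (T^[(i : ℕ) * L] y) = 1 / 4 + ((j i : ℕ) : ℝ) / (2 * K) := by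
    intro j
    apply h n (fun i => 1 / 4 + ((j i : ℕ) : ℝ) / (2 * K))
    intro i
    have h1 : (0 : ℝ) ≤ ((j i : ℕ) : ℝ) / (2 * K) := by positivity
    have h2 : ((j i : ℕ) : ℝ) / (2 * K) ≤ 1 / 2 := by
      rw [div_le_iff₀ (by positivity)]
      have h3 : ((j i : ℕ) : ℝ) ≤ K := by exact_mod_cast Nat.lt_succ_iff.1 (j i).2
      linarith
    constructor <;> linarith
  choose y hy using hc
  have hinj : Function.Injective y := by
    intro j j' hjj
    funext i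
    have h1 := hy j i
    have h2 := hy j' i
    rw [hjj] at h1
    rw [h1] at h2
    have h3 : ((j i : ℕ) : ℝ) / (2 * K) = ((j' i : ℕ) : ℝ) / (2 * K) := by linarith
    have h4 : ((j i : ℕ) : ℝ) = ((j' i : ℕ) : ℝ) := by
      have h5 : (2 * (K : ℝ)) ≠ 0 := by positivity
      field_simp at h3
      exact h3
    exact Fin.ext (by exact_mod_cast h4)
  have hnet : Dynamics.IsDynNetIn T Set.univ (UU ρ (1 / (4 * (K : ℝ)))) (L * n)
      ((Finset.univ.image y : Finset Y) : Set Y) := by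
    refine ⟨Set.subset_univ _, ?_⟩
    intro a ha b hb hab
    rw [Finset.mem_coe, Finset.mem_image] at ha hb
    obtain ⟨j, -, rfl⟩ := ha
    obtain ⟨j', -, rfl⟩ := hb
    have hne : j ≠ j' := fun e => hab (by rw [e])
    obtain ⟨i, hi⟩ := Function.ne_iff.1 hne
    change Disjoint (UniformSpace.ball (y j) _) (UniformSpace.ball (y j') _)
    rw [Set.disjoint_left]
    intro z hz hz'
    have hz1 : (y j, z) ∈ Dynamics.dynEntourage T (UU ρ (1 / (4 * (K : ℝ)))) (L * n) := hz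
    have hz2 : (y j', z) ∈ Dynamics.dynEntourage T (UU ρ (1 / (4 * (K : ℝ)))) (L * n) := hz'
    rw [Dynamics.mem_dynEntourage] at hz1 hz2
    have hlt : (i : ℕ) * L < L * n := by
      rw [mul_comm L n]
      exact Nat.mul_lt_mul_of_pos_right i.2 hL
    have e1 : dist (ρ (T^[(i : ℕ) * L] (y j))) (ρ (T^[(i : ℕ) * L] z)) < 1 / (4 * (K : ℝ)) :=
      hz1 _ hlt
    have e2 : dist (ρ (T^[(i : ℕ) * L] (y j'))) (ρ (T^[(i : ℕ) * L] z)) < 1 / (4 * (K : ℝ)) :=
      hz2 _ hlt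
    rw [hy j i] at e1
    rw [hy j' i] at e2
    rw [Real.dist_eq] at e1 e2
    have e3 : |((j i : ℕ) : ℝ) / (2 * K) - ((j' i : ℕ) : ℝ) / (2 * K)| < 1 / (2 * (K : ℝ)) := by
      have h6 : (1 : ℝ) / (2 * K) = 1 / (4 * K) + 1 / (4 * K) := by
        field_simp
        norm_num
      rw [h6]
      rw [abs_lt] at e1 e2 ⊢
      constructor <;> linarith [e1.1, e1.2, e2.1, e2.2]
    rw [← sub_div, abs_div, abs_of_pos (by positivity : (0 : ℝ) < 2 * K),
      div_lt_div_iff_of_pos_right (by positivity)] at e3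
    have hne' : ((j i : ℕ) : ℤ) ≠ ((j' i : ℕ) : ℤ) := by
      intro e
      exact hi (Fin.ext (by exact_mod_cast e))
    have h7 : (1 : ℤ) ≤ |((j i : ℕ) : ℤ) - ((j' i : ℕ) : ℤ)| := Int.one_le_abs (sub_ne_zero.2 hne')
    have h8 : (1 : ℝ) ≤ |((j i : ℕ) : ℝ) - ((j' i : ℕ) : ℝ)| := by exact_mod_cast h7
    linarith
  have hcard : (Finset.univ.image y : Finset Y).card = (K + 1) ^ n := by
    rw [Finset.card_image_of_injective _ hinj, Finset.card_univ, Fintype.card_fun, Fintype.card_fin,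
      Fintype.card_fin]
  rw [← hcard]
  exact hnet.card_le_netMaxcard

theorem log_le {Y : Type u} [MetricSpace Y] [CompactSpace Y] (T : Y → Y) (ρ : Y → ℝ) (hρ : Continuous ρ)
    (L : ℕ) (hL : 1 ≤ L)
    (h : ∀ n : ℕ, ∀ c : Fin n → ℝ, (∀ i, 1 / 4 ≤ c i ∧ c i ≤ 3 / 4) →
      ∃ y : Y, ∀ i : Fin n, ρ (T^[(i : ℕ) * L] y) = c i) (K : ℕ) (hK : 1 ≤ K) :
    ENNReal.log ((K + 1 : ℕ) : ENNReal) ≤ (L : EReal) * Dynamics.coverEntropy T Set.univ := by
  have hK0 : (0 : ℝ) < K := by exact_mod_cast hK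
  set U := UU ρ (1 / (4 * (K : ℝ))) with hU
  have hUm : U ∈ uniformity Y := UU_mem ρ hρ (by positivity)
  have hmono : Monotone (fun n : ℕ => ((Dynamics.netMaxcard T Set.univ U n : ℕ∞) : ENNReal)) :=
    fun _ _ hmn => ENat.toENNReal_mono (Dynamics.netMaxcard_monotone_time T Set.univ U hmn)
  have h1 := hmono.expGrowthSup_comp_mul (m := L) (by omega)
  have h2 : ExpGrowth.expGrowthSup (fun n : ℕ => ((K + 1 : ℕ) : ENNReal) ^ n) ≤
      ExpGrowth.expGrowthSup (fun n : ℕ => ((Dynamics.netMaxcard T Set.univ U (L * n) : ℕ∞) : ENNReal)) := by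
    apply ExpGrowth.expGrowthSup_monotone
    intro n
    have h3 := ENat.toENNReal_mono (net_card T ρ L hL h K hK n)
    rw [ENat.toENNReal_coe] at h3
    push_cast at h3 ⊢
    exact h3
  rw [ExpGrowth.expGrowthSup_pow] at h2
  refine h2.trans ?_
  have h4 : ExpGrowth.expGrowthSup (fun n : ℕ => ((Dynamics.netMaxcard T Set.univ U (L * n) : ℕ∞) : ENNReal))
      = (L : EReal) * Dynamics.netEntropyEntourage T Set.univ U := h1
  rw [h4]
  exact mul_le_mul_of_nonneg_left (Dynamics.netEntropyEntourage_le_coverEntropy T Set.univ hUm)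
    (by positivity)

theorem entropy_top {Y : Type u} [MetricSpace Y] [CompactSpace Y] (T : Y → Y) (ρ : Y → ℝ) (hρ : Continuous ρ)
    (L : ℕ) (hL : 1 ≤ L)
    (h : ∀ n : ℕ, ∀ c : Fin n → ℝ, (∀ i, 1 / 4 ≤ c i ∧ c i ≤ 3 / 4) → ∃ y : Y, ∀ i : Fin n, ρ (T^[(i : ℕ) * L] y) = c i) :
    Dynamics.coverEntropy T Set.univ = ⊤ := by
  have key := log_le T ρ hρ L hL h
  have hlog : ∀ K : ℕ, ENNReal.log ((K + 1 : ℕ) : ENNReal) = ((Real.log ((K + 1 : ℕ) : ℝ) : ℝ) : EReal) := by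
    intro K
    rw [← ENNReal.ofReal_natCast, ENNReal.log_ofReal_of_pos (by positivity)]
  by_contra hcon
  induction hx : Dynamics.coverEntropy T Set.univ with
  | top => exact hcon hx
  | bot =>
    have h1 := key 1 le_rfl
    rw [hx, hlog, EReal.mul_bot_of_pos (by exact_mod_cast hL)] at h1
    exact EReal.coe_ne_bot _ (le_bot_iff.1 h1)
  | coe r =>
    obtain ⟨K, hK⟩ := exists_nat_gt (Real.exp ((L : ℝ) * r))
    have h1 := key (K + 1) (by omega)
    rw [hx, hlog] at h1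
    have h2 : Real.log ((K + 1 + 1 : ℕ) : ℝ) ≤ (L : ℝ) * r := by
      have h3 : ((Real.log ((K + 1 + 1 : ℕ) : ℝ) : ℝ) : EReal) ≤ (((L : ℝ) * r : ℝ) : EReal) := by
        rw [EReal.coe_mul]
        exact_mod_cast h1
      exact_mod_cast h3
    have h4 : (L : ℝ) * r < Real.log ((K + 1 + 1 : ℕ) : ℝ) := by
      rw [Real.lt_log_iff_exp_lt (by positivity)]
      push_cast
      linarith
    linarith

end Pool.Agent.X886.MD
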