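import Pool.Agent.X886.MD.Defs

namespace Pool.Agent.X886.MD

open Set Filter Topology

theorem mix_mem (f g : ℝ → ℝ) (hf : f ∈ LipSet) (hg : g ∈ LipSet) (τ : ℝ) (h0 : 0 ≤ τ) (h1 : τ ≤ 1) :
    mix f g τ ∈ LipSet := by
  obtain ⟨hf1, hf2⟩ := hf
  obtain ⟨hg1, hg2⟩ := hg
  have h1' : 0 ≤ 1 - τ := by linarith
  refine ⟨fun s => ⟨?_, ?_⟩, fun s s' => ?_⟩
  · have a := mul_nonneg h1' (hf1 s).1
    have b := mul_nonneg h0 (hg1 s).1
    simp only [mix]; linarith
  · have a := mul_le_mul_of_nonneg_left (hf1 s).2 h1'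
    have b := mul_le_mul_of_nonneg_left (hg1 s).2 h0
    simp only [mix]; linarith
  · have e : mix f g τ s - mix f g τ s' = (1 - τ) * (f s - f s') + τ * (g s - g s') := by
      simp only [mix]; ring
    rw [e]
    calc |(1 - τ) * (f s - f s') + τ * (g s - g s')|
        ≤ |(1 - τ) * (f s - f s')| + |τ * (g s - g s')| := abs_add_le _ _
      _ = (1 - τ) * |f s - f s'| + τ * |g s - g s'| := by
          rw [abs_mul, abs_mul, abs_of_nonneg h1', abs_of_nonneg h0]
      _ ≤ (1 - τ) * |s - s'| + τ * |s - s'| := by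
          have a := mul_le_mul_of_nonneg_left (hf2 s s') h1'
          have b := mul_le_mul_of_nonneg_left (hg2 s s') h0
          linarith
      _ = |s - s'| := by ring

theorem clampM_key (M : ℝ) (hM : 0 ≤ M) (v v' : ℝ) :
    |clampM M v - clampM M v'| + |(|v - clampM M v| - |v' - clampM M v'|)| ≤ |v - v'| := by
  have c : ∀ w : ℝ, (w ≤ -M ∧ clampM M w = -M ∧ |w - clampM M w| = -M - w) ∨
      (-M ≤ w ∧ w ≤ M ∧ clampM M w = w ∧ |w - clampM M w| = 0) ∨
      (M ≤ w ∧ clampM M w = M ∧ |w - clampM M w| = w - M) := by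
    intro w
    rcases le_total w (-M) with h | h
    · left
      have e : clampM M w = -M := by
        unfold clampM; rw [min_eq_right (by linarith), max_eq_left h]
      refine ⟨h, e, ?_⟩
      rw [e, abs_of_nonpos (by linarith)]; ring
    · rcases le_total w M with h' | h'
      · right; left
        have e : clampM M w = w := by
          unfold clampM; rw [min_eq_right h', max_eq_right h]
        refine ⟨h, h', e, ?_⟩
        rw [e]; simp
      · right; right
        have e : clampM M w = M := by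
          unfold clampM; rw [min_eq_left h', max_eq_right (by linarith)]
        refine ⟨h', e, ?_⟩
        rw [e, abs_of_nonneg (by linarith)]
  rcases c v with ⟨h1, h2, h3⟩ | ⟨h1, h1', h2, h3⟩ | ⟨h1, h2, h3⟩ <;>
  rcases c v' with ⟨k1, k2, k3⟩ | ⟨k1, k1', k2, k3⟩ | ⟨k1, k2, k3⟩ <;>
  (rw [h3, k3, h2, k2]
   generalize hA : |v - v'| = A
   have hA1 := le_abs_self (v - v')
   have hA2 := neg_abs_le (v - v')
   rw [hA] at hA1 hA2
   rcases abs_cases (v - v') with ⟨e1, e1'⟩ | ⟨e1, e1'⟩ <;> rw [hA] at e1 <;>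
   simp only [abs_eq_max_neg] <;>
   simp only [← max_add_add_left, ← max_add_add_right, max_le_iff] <;>
   (repeat' apply And.intro) <;> linarith)

theorem piece_lip (M : ℝ) (hM : 0 ≤ M) (h : ℝ → ℝ) (hh : h ∈ LipSet) (v v' : ℝ) :
    |piece M h v - piece M h v'| ≤ |v - v'| := by
  have e : piece M h v - piece M h v' = (h (clampM M v) - h (clampM M v')) +
      (|v - clampM M v| - |v' - clampM M v'|) := by simp only [piece]; ring
  rw [e]
  refine (abs_add_le _ _).trans ?_
  have := hh.2 (clampM M v) (clampM M v')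
  have := clampM_key M hM v v'
  linarith

theorem piece_nonneg (M : ℝ) (h : ℝ → ℝ) (hh : h ∈ LipSet) (v : ℝ) : 0 ≤ piece M h v :=
  add_nonneg (hh.1 _).1 (abs_nonneg _)

theorem piece_in (M : ℝ) (h : ℝ → ℝ) (v : ℝ) (hv : |v| ≤ M) : piece M h v = h v := by
  have h1 := abs_le.1 hv
  have e : clampM M v = v := by
    unfold clampM; rw [min_eq_right h1.2, max_eq_right h1.1]
  simp [piece, e]

theorem piece_out (M : ℝ) (hM : 0 ≤ M) (h : ℝ → ℝ) (hh : h ∈ LipSet) (v : ℝ) (hv : M + 1 ≤ |v|) : 1 ≤ piece M h v := by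
  have h1 := (hh.1 (clampM M v)).1
  have h2 : 1 ≤ |v - clampM M v| := by
    rcases le_abs.1 hv with h | h
    · have e : clampM M v = M := by
        unfold clampM; rw [min_eq_left (by linarith), max_eq_right (by linarith)]
      rw [e]; exact le_trans (by linarith) (le_abs_self _)
    · have e : clampM M v = -M := by
        unfold clampM; rw [min_eq_right (by linarith), max_eq_left (by linarith)]
      rw [e]; exact le_trans (by linarith) (neg_le_abs _)
  simp only [piece]; linarith

theorem iInf_diff {n : ℕ} (a b : Fin (n + 1) → ℝ) (d : ℝ) (h : ∀ i, |a i - b i| ≤ d) :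
    |(⨅ i, a i) - ⨅ i, b i| ≤ d := by
  have bd : ∀ c : Fin (n + 1) → ℝ, BddBelow (Set.range c) := fun c => (Set.finite_range c).bddBelow
  rw [abs_le]
  constructor
  · have : (⨅ i, b i) - d ≤ ⨅ i, a i := by
      apply le_ciInf; intro i
      have h1 := ciInf_le (bd b) i
      have h2 := (abs_le.1 (h i)).1
      linarith
    linarith
  · have : (⨅ i, a i) - d ≤ ⨅ i, b i := by
      apply le_ciInf; intro i
      have h1 := ciInf_le (bd a) i
      have h2 := (abs_le.1 (h i)).2
      linarith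
    linarith

theorem min_one_diff (a b : ℝ) : |min 1 a - min 1 b| ≤ |a - b| := by
  have := abs_min_sub_min_le_max 1 a 1 b
  simpa using this

theorem glue_mem (M n : ℕ) (f g : ℝ → ℝ) (hf : f ∈ LipSet) (hg : g ∈ LipSet) (t : Fin (n + 1) → ℝ)
    (ht : ∀ i, 0 ≤ t i ∧ t i ≤ 1) : glue M n f g t ∈ LipSet := by
  have hm : ∀ i, mix f g (t i) ∈ LipSet := fun i => mix_mem f g hf hg (t i) (ht i).1 (ht i).2
  refine ⟨fun s => ⟨?_, ?_⟩, fun s s' => ?_⟩
  · exact le_min zero_le_one (le_ciInf fun i => piece_nonneg _ _ (hm i) _)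
  · exact min_le_left _ _
  · refine (min_one_diff _ _).trans (iInf_diff _ _ _ fun i => ?_)
    refine (piece_lip M (Nat.cast_nonneg M) _ (hm i) _ _).trans (le_of_eq ?_)
    congr 1; ring

theorem glue_window (M n : ℕ) (f g : ℝ → ℝ) (hf : f ∈ LipSet) (hg : g ∈ LipSet) (t : Fin (n + 1) → ℝ)
    (ht : ∀ i, 0 ≤ t i ∧ t i ≤ 1) (i : Fin (n + 1)) (s : ℝ) (hs : |s| ≤ M) :
    glue M n f g t (s + (i : ℕ) * (2 * M + 1)) = mix f g (t i) s := by
  have hm : ∀ i, mix f g (t i) ∈ LipSet := fun i => mix_mem f g hf hg (t i) (ht i).1 (ht i).2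
  have hM : (0 : ℝ) ≤ M := Nat.cast_nonneg M
  have e1 : piece M (mix f g (t i)) (s + (i : ℕ) * (2 * M + 1) - (i : ℕ) * (2 * M + 1)) = mix f g (t i) s := by
    rw [add_sub_cancel_right]; exact piece_in _ _ _ hs
  have hle1 : mix f g (t i) s ≤ 1 := ((hm i).1 s).2
  simp only [glue]
  apply le_antisymm
  · refine (min_le_right _ _).trans ?_
    refine (ciInf_le (Set.finite_range _).bddBelow i).trans (le_of_eq e1)
  · refine le_min hle1 (le_ciInf fun j => ?_)
    by_cases hj : j = i
    · subst hj; exact le_of_eq e1.symm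
    · refine hle1.trans (piece_out _ hM _ (hm j) _ ?_)
      have hs1 := abs_le.1 hs
      have hne : (j : ℕ) ≠ (i : ℕ) := fun h => hj (Fin.ext h)
      have hpos : (0 : ℝ) ≤ 2 * M + 1 := by positivity
      rcases lt_or_gt_of_ne hne with h | h
      · have h' : ((j : ℕ) : ℝ) + 1 ≤ ((i : ℕ) : ℝ) := by exact_mod_cast h
        have := mul_le_mul_of_nonneg_right h' hpos
        refine le_trans ?_ (le_abs_self _)
        nlinarith
      · have h' : ((i : ℕ) : ℝ) + 1 ≤ ((j : ℕ) : ℝ) := by exact_mod_cast h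
        have := mul_le_mul_of_nonneg_right h' hpos
        refine le_trans ?_ (neg_le_abs _)
        nlinarith

theorem glue_continuous (M n : ℕ) (f g : ℝ → ℝ) (s : ℝ) : Continuous (fun t : Fin (n + 1) → ℝ => glue M n f g t s) := by
  have key : ∀ v : ℝ, ∀ i : Fin (n + 1), Continuous (fun t : Fin (n + 1) → ℝ => piece M (mix f g (t i)) v) := by
    intro v i
    simp only [piece, mix]
    fun_prop
  have e : (fun t : Fin (n + 1) → ℝ => glue M n f g t s) = fun t => min 1 (Finset.univ.inf' Finset.univ_nonempty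
      (fun i : Fin (n + 1) => piece M (mix f g (t i)) (s - (i : ℕ) * (2 * M + 1)))) := by
    funext t
    simp only [glue]
    congr 1
    rw [Finset.inf'_univ_eq_ciInf]
  rw [e]
  refine continuous_const.min ?_
  exact Continuous.finset_inf'_apply _ fun i _ => key _ i

end Pool.Agent.X886.MD
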