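import Pool.Agent.X886.MD.Space
import Pool.Agent.X886.MD.Glue
import Pool.Agent.X886.MD.Entropy
import Pool.Agent.H63Fed.Miranda

namespace Pool.Agent.X886.MD

open Set Filter Topology

universe u

/-- The phase space: a `1`-Lipschitz function `ℝ → [0,1]` and a point of the circle `ℝ / ℤ`. -/
abbrev Sp : Type := LipSet × UnitAddCircle

instance compactSpace_lipSet : CompactSpace LipSet := isCompact_iff_compactSpace.1 isCompact_lipSet

instance metrizableSpace_lipSet : TopologicalSpace.MetrizableSpace LipSet := metrizable_lipSet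

/-- Translation of the function and rotation of the circle. -/
noncomputable def flow : Flow ℝ Sp where
  toFun t x := (⟨fun s => x.1.1 (s + t), shift_mem t x.1⟩, x.2 + (t : UnitAddCircle))
  cont' := by
    refine Continuous.prodMk ?_ ?_
    · exact continuous_shift.comp (continuous_fst.prodMk (continuous_fst.comp continuous_snd))
    · exact (continuous_snd.comp continuous_snd).add ((AddCircle.continuous_mk' (1 : ℝ)).comp continuous_fst)
  map_add' t₁ t₂ x := by
    refine Prod.ext (Subtype.ext (funext fun s => ?_)) ?_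
    · change x.1.1 (s + (t₁ + t₂)) = x.1.1 (s + t₁ + t₂)
      rw [add_assoc]
    · change x.2 + ((t₁ + t₂ : ℝ) : UnitAddCircle) = x.2 + (t₂ : UnitAddCircle) + (t₁ : UnitAddCircle)
      rw [AddCircle.coe_add]
      abel
  map_zero' x := by
    refine Prod.ext (Subtype.ext (funext fun s => ?_)) ?_
    · simp
    · simp

theorem flow_apply (t : ℝ) (x : Sp) :
    flow t x = (⟨fun s => x.1.1 (s + t), shift_mem t x.1⟩, x.2 + (t : UnitAddCircle)) := rfl

theorem window (F : Sp → ℝ) (hF : Continuous F) :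
    ∃ M : ℕ, ∀ x x' : Sp, x.2 = x'.2 → (∀ s : ℝ, |s| ≤ M → x.1.1 s = x'.1.1 s) → |F x - F x'| < 1 / 8 := by
  by_contra hcon
  push Not at hcon
  let A : ℕ → Set (Sp × Sp) := fun M => {q | q.1.2 = q.2.2 ∧ (∀ s : ℝ, |s| ≤ (M : ℝ) → q.1.1.1 s = q.2.1.1 s) ∧
    1 / 8 ≤ |F q.1 - F q.2|}
  have hval : ∀ s : ℝ, Continuous (fun x : Sp => x.1.1 s) := fun s =>
    (continuous_apply s).comp (continuous_subtype_val.comp continuous_fst)
  have hcl : ∀ M, IsClosed (A M) := by
    intro M
    have h1 : IsClosed {q : Sp × Sp | q.1.2 = q.2.2} :=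
      isClosed_eq (continuous_snd.comp continuous_fst) (continuous_snd.comp continuous_snd)
    have h2 : IsClosed {q : Sp × Sp | ∀ s : ℝ, |s| ≤ (M : ℝ) → q.1.1.1 s = q.2.1.1 s} := by
      have : {q : Sp × Sp | ∀ s : ℝ, |s| ≤ (M : ℝ) → q.1.1.1 s = q.2.1.1 s} =
          ⋂ s : ℝ, ⋂ _ : |s| ≤ (M : ℝ), {q : Sp × Sp | q.1.1.1 s = q.2.1.1 s} := by
        ext q; simp
      rw [this]
      exact isClosed_iInter fun s => isClosed_iInter fun _ =>
        isClosed_eq ((hval s).comp continuous_fst) ((hval s).comp continuous_snd)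
    have h3 : IsClosed {q : Sp × Sp | 1 / 8 ≤ |F q.1 - F q.2|} :=
      isClosed_le continuous_const ((hF.comp continuous_fst).sub (hF.comp continuous_snd)).abs
    have : A M = {q : Sp × Sp | q.1.2 = q.2.2} ∩ ({q : Sp × Sp | ∀ s : ℝ, |s| ≤ (M : ℝ) → q.1.1.1 s = q.2.1.1 s} ∩
        {q : Sp × Sp | 1 / 8 ≤ |F q.1 - F q.2|}) := by
      ext q; simp [A]
    rw [this]
    exact h1.inter (h2.inter h3)
  obtain ⟨q, hq⟩ := IsCompact.nonempty_iInter_of_sequence_nonempty_isCompact_isClosed A
    (fun i q hq => ⟨hq.1, fun s hs => hq.2.1 s (hs.trans (by push_cast; linarith)), hq.2.2⟩)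
    (fun i => by
      obtain ⟨x, x', h1, h2, h3⟩ := hcon i
      exact ⟨(x, x'), h1, h2, h3⟩)
    (hcl 0).isCompact hcl
  rw [mem_iInter] at hq
  have hE : q.1 = q.2 := by
    refine Prod.ext (Subtype.ext (funext fun s => ?_)) (hq 0).1
    obtain ⟨M, hM⟩ := exists_nat_ge |s|
    exact (hq M).2.1 s hM
  have := (hq 0).2.2
  rw [hE, sub_self, abs_zero] at this
  norm_num at this

theorem cube (F : Sp → ℝ) (hF : Continuous F) (w w' : Sp) (hw : w.2 = w'.2) (h0 : F w = 0) (h1 : F w' = 1) (M : ℕ)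
    (hM : ∀ x x' : Sp, x.2 = x'.2 → (∀ s : ℝ, |s| ≤ M → x.1.1 s = x'.1.1 s) → |F x - F x'| < 1 / 8) (n : ℕ)
    (c : Fin n → ℝ) (hc : ∀ i, 1 / 4 ≤ c i ∧ c i ≤ 3 / 4) :
    ∃ x : Sp, ∀ i : Fin n, F (flow (((i : ℕ) * (2 * M + 1) : ℕ) : ℝ) x) = c i := by
  cases n with
  | zero => exact ⟨w, fun i => i.elim0⟩
  | succ n =>
    let cl : (Fin (n + 1) → ℝ) → (Fin (n + 1) → ℝ) := fun t i => max 0 (min 1 (t i))
    have hcl : ∀ t i, 0 ≤ cl t i ∧ cl t i ≤ 1 := fun t i =>
      ⟨le_max_left _ _, max_le zero_le_one (min_le_left _ _)⟩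
    have hclc : Continuous cl := continuous_pi fun i =>
      continuous_const.max (continuous_const.min (continuous_apply i))
    let X : (Fin (n + 1) → ℝ) → Sp := fun t => (⟨glue M n w.1.1 w'.1.1 (cl t),
      glue_mem M n _ _ w.1.2 w'.1.2 _ (hcl t)⟩, w.2)
    have hX : Continuous X := by
      refine Continuous.prodMk ?_ continuous_const
      refine Continuous.subtype_mk ?_ _
      exact continuous_pi fun s => (glue_continuous M n w.1.1 w'.1.1 s).comp hclc
    have hflow : ∀ t : ℝ, Continuous (fun x : Sp => flow t x) := fun t =>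
      flow.continuous continuous_const continuous_id
    let G : (Fin (n + 1) → ℝ) → (Fin (n + 1) → ℝ) := fun t i =>
      F (flow (((i : ℕ) * (2 * M + 1) : ℕ) : ℝ) (X t)) - c i
    have hG : Continuous G := continuous_pi fun i =>
      (hF.comp ((hflow _).comp hX)).sub continuous_const
    have key : ∀ (t : Fin (n + 1) → ℝ) (i : Fin (n + 1)) (v : Sp), v.2 = w.2 →
        (∀ s, mix w.1.1 w'.1.1 (cl t i) s = v.1.1 s) →
        |F (flow (((i : ℕ) * (2 * M + 1) : ℕ) : ℝ) (X t)) - F v| < 1 / 8 := by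
      intro t i v hv hs
      apply hM
      · rw [flow_apply, hv]
        change w.2 + _ = w.2
        have : (((((i : ℕ) * (2 * M + 1) : ℕ) : ℝ)) : UnitAddCircle) = 0 := by
          rw [AddCircle.coe_eq_zero_iff]
          exact ⟨(((i : ℕ) * (2 * M + 1) : ℕ) : ℤ), by simp⟩
        rw [this, add_zero]
      · intro s hsM
        rw [flow_apply]
        change glue M n w.1.1 w'.1.1 (cl t) (s + (((i : ℕ) * (2 * M + 1) : ℕ) : ℝ)) = _
        rw [← hs s, ← glue_window M n _ _ w.1.2 w'.1.2 (cl t) (hcl t) i s hsM]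
        congr 2
        push_cast
        ring
    obtain ⟨t, -, ht⟩ := H63Fed.Miranda.poincare_miranda (n + 1) G hG.continuousOn
      (by
        intro t ht i hi
        have hcl0 : cl t i = 0 := by simp [cl, hi]
        have := key t i w rfl (fun s => by simp [mix, hcl0])
        rw [h0, sub_zero] at this
        have h2 := (abs_lt.1 this).2
        have h3 := (hc i).1
        change F _ - c i ≤ 0
        linarith)
      (by
        intro t ht i hi
        have hcl1 : cl t i = 1 := by simp [cl, hi]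
        have := key t i w' hw.symm (fun s => by simp [mix, hcl1])
        rw [h1] at this
        have h2 := (abs_lt.1 this).1
        have h3 := (hc i).2
        change 0 ≤ F _ - c i
        linarith)
    refine ⟨X t, fun i => ?_⟩
    have := congrFun ht i
    change F _ - c i = 0 at this
    linarith

theorem iterate_flow {Y : Type u} [TopologicalSpace Y] (ψ : Flow ℝ Y) (k : ℕ) (y : Y) :
    (ψ 1)^[k] y = ψ (k : ℝ) y := by
  induction k generalizing y with
  | zero => simp
  | succ k ih =>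
    rw [Function.iterate_succ_apply, ih, ← ψ.map_add]
    push_cast
    rfl

theorem factor_entropy (w w' : Sp) (hw : w.2 = w'.2) (Y : Type u) [MetricSpace Y] [CompactSpace Y] (ψ : Flow ℝ Y)
    (π : Sp → Y) (hπ : Continuous π) (he : ∀ t x, π (flow t x) = ψ t (π x)) (hne : π w ≠ π w') :
    Dynamics.coverEntropy (ψ 1) Set.univ = ⊤ := by
  have hd : 0 < dist (π w') (π w) := dist_pos.2 hne.symm
  let ρ : Y → ℝ := fun y => dist y (π w) / dist (π w') (π w)
  have hρ : Continuous ρ := (continuous_id.dist continuous_const).div_const _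
  obtain ⟨M, hM⟩ := window (fun x => ρ (π x)) (hρ.comp hπ)
  refine entropy_top (ψ 1) ρ hρ (2 * M + 1) (by omega) ?_
  intro n c hc
  obtain ⟨x, hx⟩ := cube (fun x => ρ (π x)) (hρ.comp hπ) w w' hw (by simp [ρ]) (by simp [ρ, hd.ne']) M hM n c hc
  refine ⟨π x, fun i => ?_⟩
  rw [iterate_flow, ← he]
  exact hx i

/-- Constant functions. -/
def constFn (c : Icc (0 : ℝ) 1) : LipSet := ⟨fun _ => c.1, fun _ => ⟨c.2.1, c.2.2⟩, fun s s' => by simp⟩

theorem constFn_injective : Function.Injective constFn := by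
  intro c c' h
  have := congrArg (fun f : LipSet => f.1 0) h
  exact Subtype.ext this

theorem fixedPointFree (x : Sp) : ∃ t : ℝ, flow t x ≠ x := by
  refine ⟨1 / 2, fun h => ?_⟩
  have h2 := congrArg Prod.snd h
  rw [flow_apply] at h2
  have h3 : ((1 / 2 : ℝ) : UnitAddCircle) = 0 := by simpa using h2
  rw [AddCircle.coe_eq_zero_iff] at h3
  obtain ⟨n, hn⟩ := h3
  have h4 : (n : ℝ) = 1 / 2 := by simpa using hn
  have h5 : (2 * n : ℤ) = 1 := by
    have : ((2 * n : ℤ) : ℝ) = ((1 : ℤ) : ℝ) := by push_cast; rw [h4]; norm_num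
    exact_mod_cast this
  omega

theorem fibre_infinite (θ : UnitAddCircle) : ((fun x : Sp => x.2) ⁻¹' {θ}).Infinite := by
  have hinf : (Set.univ : Set (Icc (0 : ℝ) 1)).Infinite := by
    rw [Set.infinite_univ_iff]
    exact (Set.Icc_infinite zero_lt_one).to_subtype
  have hinj : Function.Injective (fun c : Icc (0 : ℝ) 1 => ((constFn c, θ) : Sp)) := by
    intro c c' h
    exact constFn_injective (congrArg Prod.fst h)
  refine Set.Infinite.mono ?_ (hinf.image hinj.injOn)
  rintro _ ⟨c, -, rfl⟩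
  simp

end Pool.Agent.X886.MD
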