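import Pool.Agent.X886.MD.Defs

namespace Pool.Agent.X886.MD

open Set Filter Topology

theorem isClosed_lipSet : IsClosed LipSet := by
  have h1 : LipSet = (⋂ s : ℝ, {h : ℝ → ℝ | 0 ≤ h s}) ∩ (⋂ s : ℝ, {h : ℝ → ℝ | h s ≤ 1}) ∩
      (⋂ s : ℝ, ⋂ s' : ℝ, {h : ℝ → ℝ | |h s - h s'| ≤ |s - s'|}) := by
    ext h
    simp only [LipSet, mem_ofPred_eq, mem_inter_iff, mem_iInter]
    constructor
    · rintro ⟨ha, hb⟩
      exact ⟨⟨fun s => (ha s).1, fun s => (ha s).2⟩, hb⟩
    · rintro ⟨⟨ha, hb⟩, hc⟩
      exact ⟨fun s => ⟨ha s, hb s⟩, hc⟩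
  rw [h1]
  refine ((isClosed_iInter fun s => ?_).inter (isClosed_iInter fun s => ?_)).inter
    (isClosed_iInter fun s => isClosed_iInter fun s' => ?_)
  · exact isClosed_le continuous_const (continuous_apply s)
  · exact isClosed_le (continuous_apply s) continuous_const
  · exact isClosed_le (((continuous_apply s).sub (continuous_apply s')).abs) continuous_const

theorem isCompact_lipSet : IsCompact LipSet := by
  have h1 : IsCompact (Set.pi univ (fun _ : ℝ => Icc (0 : ℝ) 1)) :=
    isCompact_univ_pi fun _ => isCompact_Icc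
  refine h1.of_isClosed_subset isClosed_lipSet ?_
  intro h hh s _
  exact ⟨(hh.1 s).1, (hh.1 s).2⟩

theorem lip_continuous {h : ℝ → ℝ} (hh : h ∈ LipSet) : Continuous h := by
  rw [Metric.continuous_iff]
  intro b ε hε
  refine ⟨ε, hε, fun a hab => ?_⟩
  rw [Real.dist_eq] at hab ⊢
  exact lt_of_le_of_lt (hh.2 a b) hab

theorem metrizable_lipSet : TopologicalSpace.MetrizableSpace LipSet := by
  have : CompactSpace LipSet := isCompact_iff_compactSpace.mp isCompact_lipSet
  have hc : Continuous (fun (h : LipSet) (q : ℚ) => h.1 (q : ℝ)) :=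
    continuous_pi fun q => (continuous_apply (q : ℝ)).comp continuous_subtype_val
  have hinj : Function.Injective (fun (h : LipSet) (q : ℚ) => h.1 (q : ℝ)) := by
    intro h h' e
    apply Subtype.ext
    have hd : DenseRange ((↑) : ℚ → ℝ) := Rat.isDenseEmbedding_coe_real.dense
    refine Continuous.ext_on hd (lip_continuous h.2) (lip_continuous h'.2) ?_
    rintro _ ⟨q, rfl⟩
    exact congrFun e q
  exact (hc.isClosedEmbedding hinj).isEmbedding.metrizableSpace

theorem shift_mem (t : ℝ) (h : LipSet) : (fun s => h.1 (s + t)) ∈ LipSet := by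
  refine ⟨fun s => h.2.1 (s + t), fun s s' => ?_⟩
  have := h.2.2 (s + t) (s' + t)
  simpa [add_sub_add_right_eq_sub] using this

theorem continuous_shift : Continuous (fun q : ℝ × LipSet => (⟨fun s => q.2.1 (s + q.1), shift_mem q.1 q.2⟩ : LipSet)) := by
  refine Continuous.subtype_mk ?_ _
  refine continuous_pi fun s => ?_
  rw [continuous_iff_continuousAt]
  rintro ⟨t, h⟩
  have h1 : Tendsto (fun q : ℝ × LipSet => |q.1 - t| + |q.2.1 (s + t) - h.1 (s + t)|) (𝓝 (t, h)) (𝓝 0) := by
    have hc : Continuous (fun q : ℝ × LipSet => |q.1 - t| + |q.2.1 (s + t) - h.1 (s + t)|) := by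
      refine ((continuous_fst.sub continuous_const).abs).add
        (((((continuous_apply (s + t)).comp continuous_subtype_val).comp continuous_snd).sub
          continuous_const).abs)
    have := hc.tendsto (t, h)
    simpa using this
  have h2 : Tendsto (fun q : ℝ × LipSet => q.2.1 (s + q.1) - h.1 (s + t)) (𝓝 (t, h)) (𝓝 0) := by
    refine squeeze_zero_norm (fun q => ?_) h1
    rw [Real.norm_eq_abs]
    have e : q.2.1 (s + q.1) - h.1 (s + t) =
        (q.2.1 (s + q.1) - q.2.1 (s + t)) + (q.2.1 (s + t) - h.1 (s + t)) := by ring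
    rw [e]
    refine (abs_add_le _ _).trans ?_
    have h3 := q.2.2.2 (s + q.1) (s + t)
    have e3 : s + q.1 - (s + t) = q.1 - t := by ring
    rw [e3] at h3
    linarith
  have h4 := h2.add_const (h.1 (s + t))
  simpa [ContinuousAt] using h4

end Pool.Agent.X886.MD
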